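import Pool.Agent.WR2.StmtsC

set_option autoImplicit false

namespace Pool.Agent.WR2.H34

open Pool.Agent.WIR
open scoped BigOperators ENNReal

theorem bst (hcmo : CmoStmt) (hwrb : WrbStmt) : BstStmt := by
  intro t s r r' a
  have hw : ∀ r m : ℕ, 0 ≤ wr r m := hwrb.1
  have h1 : Tht t r a ≤ AO t (fun _ => Tht s r') a
      + AO t (fun _ m => max 0 (wr r m - Tht s r' m)) a := by
    show AO t (fun _ => wr r) a ≤ _
    unfold AO PS
    rw [← Finset.sum_add_distrib]
    apply Finset.sum_le_sum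
    intro l _
    rw [← mul_add, ← Finset.sum_add_distrib]
    apply mul_le_mul_of_nonneg_left _ (by positivity)
    apply Finset.sum_le_sum
    intro b _
    have h := le_max_right 0 (wr r b - Tht s r' b)
    show wr r b ≤ Tht s r' b + max 0 (wr r b - Tht s r' b)
    linarith
  let F : ℕ → ℕ → ℝ := fun l l' =>
    (3 ^ (l + l') / 2 ^ (t + s) : ℝ) * PS t l (fun m => PS s l' (wr r') m) a
  have hF : ∀ l l', 0 ≤ F l l' := by
    intro l l'
    show 0 ≤ (3 ^ (l + l') / 2 ^ (t + s) : ℝ) * PS t l (fun m => PS s l' (wr r') m) a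
    unfold PS
    exact mul_nonneg (by positivity)
      (Finset.sum_nonneg fun b _ => Finset.sum_nonneg fun c _ => hw _ _)
  have h2 : AO t (fun _ => Tht s r') a = ∑ x ∈ WS t ×ˢ WS s, F x.1 x.2 := by
    rw [Finset.sum_product]
    show ∑ l ∈ WS t, (3 ^ l / 2 ^ t : ℝ) * PS t l (Tht s r') a = _
    apply Finset.sum_congr rfl
    intro l _
    show (3 ^ l / 2 ^ t : ℝ) *
        (∑ b ∈ Pre t l a, ∑ l' ∈ WS s, (3 ^ l' / 2 ^ s : ℝ) * PS s l' (wr r') b)
      = ∑ l' ∈ WS s, (3 ^ (l + l') / 2 ^ (t + s) : ℝ) * ∑ b ∈ Pre t l a, PS s l' (wr r') b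
    rw [Finset.sum_comm, Finset.mul_sum]
    apply Finset.sum_congr rfl
    intro l' _
    rw [← Finset.mul_sum, ← mul_assoc]
    congr 1
    rw [pow_add, pow_add]
    field_simp
  have h3 : Tht (t + s) r' a =
      ∑ y ∈ (WS (t + s)).sigma (fun L => Finset.range (L + 1)), F y.2 (y.1 - y.2) := by
    rw [Finset.sum_sigma]
    show ∑ L ∈ WS (t + s), (3 ^ L / 2 ^ (t + s) : ℝ) * PS (t + s) L (wr r') a = _
    apply Finset.sum_congr rfl
    intro L _
    rw [hcmo t s L (wr r') a, Finset.mul_sum]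
    apply Finset.sum_congr rfl
    intro l hl
    have h : l + (L - l) = L := by
      have := Finset.mem_range.mp hl
      omega
    show (3 ^ L / 2 ^ (t + s) : ℝ) * PS t l (fun m => PS s (L - l) (wr r') m) a
      = (3 ^ (l + (L - l)) / 2 ^ (t + s) : ℝ) * PS t l (fun m => PS s (L - l) (wr r') m) a
    rw [h]
  have h4 : ∑ x ∈ WS t ×ˢ WS s, F x.1 x.2 ≤
      ∑ y ∈ (WS (t + s)).sigma (fun L => Finset.range (L + 1)), F y.2 (y.1 - y.2) := by
    let e : ℕ × ℕ → (Σ _ : ℕ, ℕ) := fun x => ⟨x.1 + x.2, x.1⟩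
    have h5 : ∑ x ∈ WS t ×ˢ WS s, F x.1 x.2 =
        ∑ y ∈ (WS t ×ˢ WS s).image e, F y.2 (y.1 - y.2) := by
      rw [Finset.sum_image]
      · apply Finset.sum_congr rfl
        intro x _
        show F x.1 x.2 = F x.1 (x.1 + x.2 - x.1)
        rw [Nat.add_sub_cancel_left]
      · intro x _ y _ h
        have h6 : x.1 + x.2 = y.1 + y.2 := congrArg Sigma.fst h
        have h7 : x.1 = y.1 := congrArg (fun z : (Σ _ : ℕ, ℕ) => z.2) h
        have h8 : x.2 = y.2 := by omega
        exact Prod.ext h7 h8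
    rw [h5]
    apply Finset.sum_le_sum_of_subset_of_nonneg
    · intro y hy
      rw [Finset.mem_image] at hy
      obtain ⟨x, hx, rfl⟩ := hy
      rw [Finset.mem_product] at hx
      obtain ⟨hx1, hx2⟩ := hx
      unfold WS at hx1 hx2
      rw [Finset.mem_filter, Finset.mem_range] at hx1 hx2
      rw [Finset.mem_sigma]
      refine ⟨?_, ?_⟩
      · show x.1 + x.2 ∈ WS (t + s)
        unfold WS
        rw [Finset.mem_filter, Finset.mem_range]
        omega
      · show x.1 ∈ Finset.range (x.1 + x.2 + 1)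
        rw [Finset.mem_range]
        omega
    · intro y _ _
      exact hF _ _
  rw [← h3, ← h2] at h4
  linarith

end Pool.Agent.WR2.H34
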